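import Pool.Agent.H.MP_be01ff_an.G

namespace Pool.Agent.Results.MP_4c4330_an.Classical

open Set

theorem result (a α A B : ℝ) (ha : 0 < a) (hα : 0 < α) (hAB : A < B) (u : ℝ × ℝ → ℝ)
    (h1 : ContDiff ℝ 1 u) (h2 : ∀ t, 0 < t → ∀ x ∈ Ioo A B, ContDiffAt ℝ 2 u (t, x))
    (hbc : ∀ t, 0 ≤ t → u (t, A) = 0 ∧ u (t, B) = 0)
    (hpde : ∀ t, 0 < t → ∀ x ∈ Ioo A B,
      deriv (fun s => deriv (fun r => u (r, x)) s) t - deriv (fun y => deriv (fun z => u (t, z)) y) x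
        + a * |deriv (fun r => u (r, x)) t| ^ α * deriv (fun r => u (r, x)) t = 0)
    (hne : ∃ x ∈ Icc A B, u (0, x) ≠ 0 ∨ deriv (fun r => u (r, x)) 0 ≠ 0) :
    ∃ c C : ℝ, 0 < c ∧ c ≤ C ∧ ∀ t, 0 ≤ t →
      c * (1 + t) ^ (-2 / α) ≤
        ∫ x in A..B, (deriv (fun r => u (r, x)) t ^ 2 + deriv (fun z => u (t, z)) x ^ 2) ∧
      ∫ x in A..B, (deriv (fun r => u (r, x)) t ^ 2 + deriv (fun z => u (t, z)) x ^ 2) ≤
        C * (1 + t) ^ (-2 / α) :=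
  Pool.Agent.H.MP_be01ff_an.classical ha hα hAB h1 h2 hbc hpde hne

end Pool.Agent.Results.MP_4c4330_an.Classical
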